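import Pool.Agent.U81.AT.Top

/-!
# The 2-part of the strong Birch and Swinnerton-Dyer conjecture in infinite abelian 2-extensions of unbounded exponent of
# imaginary quadratic fields

`K` is an imaginary quadratic field of class number one, `E : y² = x³ + a x + b` is an elliptic curve over `K` (in
general it is not defined over `ℚ` and not a base change), and `f` is the Bianchi newform of `E`.  We suppose that
`E(K)[2] = 0`, that the `2`-Selmer group of `E/K` is trivial, and that the central value of `f` is odd: the value `Φ(0)`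
of the primitive `Φ` of the harmonic differential of `f` at the cusp `0` is not in `2 w Λ`, where `Λ ≅ ℤ` is the group of
the values of `Φ` at the cusps `x/m`, `m` prime to the level, and `w = #{u ∈ 𝓞 : u⁴ = 1}`.

An odd prime number `q` is admissible of level `k` if it splits in `K`, `E` has good reduction and `x³ + a x + b` has no
root modulo the two places above `q`, `2 ^ k ∣ q - 1`, and the norms of the places `v ∣ 2(4a³ + 27b²)` of `K` are
`2 ^ k`-th powers modulo `q`.  For such a `q` let `K(q, k)` be the subfield of degree `2 ^ k` over `K` of the field of the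
`q`-th roots of unity, and for a set `S` of prime numbers and a function `k` let `T(S, k)` be the composite of the fields
`K(q, k(q))`, `q ∈ S`.

Theorem.  (1) For every `k` the admissible primes of level `k` have a positive lower density among the primes.

(2) Let `S` be any set, finite or infinite, of prime numbers and `k` any function such that each `q ∈ S` is admissible
of level `k(q)`.  For every finite extension `F` of `K` in `T(S, k)` the function `L(E/F, s)` is continued to an entire
function, and the rank part of the conjecture of Birch and Swinnerton-Dyer holds with both sides zero: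
`ord_{s=1} L(E/F, s) = rank E(F) = 0`; `E(F)` is finite of odd order, `Ш(E/F)[2^∞] = 0` and `H¹_f(F, V_2 E) = 0`; and the
`2`-part of the leading term formula holds for `E/F` relative to `E/K`: `L(E/F, 1) / L(E/K, 1) ^ [F:K]` is a quotient of
algebraic integers prime to `2`.

(3) For finite subsets `S'` of `S`, `Gal(T(S', k)/K) ≅ ∏_{q ∈ S'} ℤ/2^{k(q)}`.  If the levels are unbounded, that is,
for all `m` there are infinitely many `q ∈ S` with `k(q) ≥ m`, then every nontrivial finite abelian `2`-group is the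
Galois group of infinitely many of the fields `F ⊂ T(S, k)` over `K`.  Such `S` and `k` exist.

About the formula: the places of `K` of bad reduction split completely in `F`, and `F` has only complex places, so that
the period and the product of the Tamagawa numbers of `E/F` are the `[F:K]`-th powers of those of `E/K`; and
`|Δ(F)| / |Δ(K)| ^ [F:K]` is odd, as `F/K` is unramified at `2`.  According to the conjecture
`L(E/F, 1) / L(E/K, 1) ^ [F:K]` is, up to the root of the odd number `|Δ(F)| / |Δ(K)| ^ [F:K]`, the quotient of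
`#Ш(E/F) / #E(F)²` by `(#Ш(E/K) / #E(K)²) ^ [F:K]`, and by (2) these numbers are units at `2`.  So the theorem is what the
conjecture predicts for the primes above `2`, for all the number fields `K ⊆ F ⊂ T(S, k)`, in an abelian extension of
infinite degree and infinite exponent with all finite abelian `2`-groups as Galois groups.

The proof.  The `L`-function of `E/F` is the product of the functions `L(f ⊗ χ, s)` for the characters `χ` of
`Gal(F/K)`, which are characters of `2`-power order modulo products of different admissible places.  Their central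
values are congruent, modulo the primes above `2`, to odd multiples of the central value of `f`; for the points one
uses the descent of `2`-Selmer classes in Galois extensions of `2`-power degree.  Both are from the starting library of
helper55 (`Pool.Agent.K4H55.CX.ab_unit`, `Pool.Agent.K4H55.CX.fin_up`), where the fields, their characters, the
decomposition law and the complete splitting at the bad places are hypotheses.  New here (`Pool.Agent.U81.AT`): these
hypotheses are proved for all the fields in the towers, with the characters constructed from the cyclotomic fields (the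
inertia and decomposition groups, the Frobenius elements, the conductors, the decomposition law of the group of
characters: `cf_fn`, `law_fn`; embeddings in the completions from trivial decomposition groups: `exists_emb`); the
admissible primes of each level have positive density (`densR`: an automorphism of order three on the roots of
`x³ + a x + b` can be chosen which fixes the roots of unity of order `2 ^ k` and the `2 ^ k`-th roots of the bad norms);
the Galois groups of the towers (`tow_gal`, `realize`).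

(Numerically the central value is odd, for instance, for `K = ℚ(√-7)` and the curve `y² + y = x³ + x² - 9 x - 15` of
conductor `19`, see `MP_60ff09_nt.DihedralTwoPower`.)
-/

set_option autoImplicit false

open NumberField IsDedekindDomain Matrix WeierstrassCurve Filter Topology
open scoped TensorProduct

namespace Pool.Agent.Results.MP_9ab903_nt.AbelianTwoTowers

/-- `K` is an imaginary quadratic field, `σ` is one of its two embeddings in `ℂ`, and `δ` generates the
different of `K`: an `x ∈ K` is in `𝓞` if and only if `Tr(x y / δ) ∈ ℤ` for all `y ∈ 𝓞`. -/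
structure IsFieldData (K : Type) [Field K] [NumberField K] (σ : K →+* ℂ) (δ : K) : Prop where
  quadratic : Module.finrank ℚ K = 2
  imaginary : ∃ x, (starRingEnd ℂ) (σ x) ≠ σ x
  different : ∀ x : K, (∃ a : 𝓞 K, (a : K) = x) ↔
    ∀ y : 𝓞 K, ∃ m : ℤ, Algebra.trace ℚ K (x * y / δ) = m

/-- `h(y) = ∫_0^∞ exp(-1/v - y v) dv = 2 y^(-1/2) K₁(2 √y)`, with the Bessel function `K₁`. -/
noncomputable def bessel (y : ℝ) : ℝ := ∫ v in Set.Ioi (0 : ℝ), Real.exp (-(1 / v) - y * v)

/-- The additive character `e(z) = exp(2πi (z/δ + conj (z/δ)))` of `ℂ`, trivial on `𝓞`. -/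
noncomputable def addChar (δ z : ℂ) : ℂ :=
  Complex.exp (2 * Real.pi * Complex.I * (z / δ + (starRingEnd ℂ) (z / δ)))

/-- The denominator `|c z + d|² + |c|² t²` of the action of the matrix `(a, b; c, d)` on the hyperbolic
space `{(z, t) : z ∈ ℂ, t > 0}`. -/
noncomputable def den (c d z : ℂ) (t : ℝ) : ℝ := ‖c * z + d‖ ^ 2 + ‖c‖ ^ 2 * t ^ 2

/-- The first coordinate `((a z + b) conj (c z + d) + a conj(c) t²) / (|c z + d|² + |c|² t²)` of the image
of `(z, t)` under the matrix `(a, b; c, d)`. -/
noncomputable def actZ (a b c d z : ℂ) (t : ℝ) : ℂ :=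
  ((a * z + b) * (starRingEnd ℂ) (c * z + d) + a * (starRingEnd ℂ) c * (t : ℂ) ^ 2) /
    (den c d z t : ℂ)

/-- The second coordinate, for a matrix of determinant one; in general it is `|ad - bc|` times this. -/
noncomputable def actT (c d z : ℂ) (t : ℝ) : ℝ := t / den c d z t

section field
variable {K : Type} [Field K] [NumberField K]

/-- The function `Φ(z, t) = ∑_{x ∈ 𝓞} c((x)) t² h(N(x) (2πt/|δ|)²) e(x z)
  = (|δ|/π) ∑_{x ≠ 0} (c((x))/|x|) t K₁(4π|x|t/|δ|) e(x z)` on the hyperbolic space, with the coefficients `c`.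
Up to a constant factor it is the primitive, zero at the cusp `∞`, of the harmonic differential of the
form of weight two with the Fourier coefficients `c`: its derivative by `t` is
`-4 ∑_{x ≠ 0} c((x)) t K₀(4π|x|t/|δ|) e(x z)`. -/
noncomputable def primitive (σ : K →+* ℂ) (δ : K) (c : Ideal (𝓞 K) → ℂ) (z : ℂ) (t : ℝ) : ℂ :=
  ∑' x : 𝓞 K, c (Ideal.span {x}) * ((t ^ 2 * bessel (Ideal.absNorm (Ideal.span {x}) *
    (2 * Real.pi * t / ‖σ δ‖) ^ 2) : ℝ) : ℂ) * addChar (σ δ) (σ x * z)

/-- The group `Λ` generated by the values of the primitive `Φ` at the cusps `x/m`, `m ≠ 0` prime to the level (that is,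
by the limits of `Φ(x/m, t)` for `t → 0`). -/
def Lam (σ : K →+* ℂ) (δ : K) (n : 𝓞 K) (c : Ideal (𝓞 K) → ℂ) : AddSubgroup ℂ :=
  AddSubgroup.closure {z | ∃ x m : 𝓞 K, m ≠ 0 ∧ IsCoprime m n ∧
    Tendsto (fun t => primitive σ δ c (σ x / σ m) t) (𝓝[>] 0) (𝓝 z)}

/-- The numbers `c(I)` are the Hecke eigenvalues of a Bianchi newform `f` of weight two, level `(n)` and
trivial character over `K`, with rational eigenvalues: they satisfy `c(𝓞) = 1`, the (trivial) bound `c(I) = O(N(I))`
and the Hecke relations `c(v I) = c(v) c(I)` for `v ∤ I`, `c(v² I) = c(v) c(v I) - N(v) c(I)` for the primes `v ∤ n`, and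
`c(v I) = c(v) c(I)` for `v ∣ n`; the differential `dΦ` of the function `Φ` with the coefficients `c` is
invariant under `Γ₀(n)`, that is, `Φ(γ P) - Φ(P)` is a constant for every `γ ∈ Γ₀(n)`; `dΦ` is an
eigenform, with the eigenvalue `±1`, of the Fricke involution `W = (0, -1; n, 0)`; and the group `Λ` of the values of `Φ` at
cusps is cyclic (this is so for rational eigenvalues, by multiplicity one and the theorem of Manin, Drinfeld and
Kurčanov: the quotient of `H₁(Γ₀(n), cusps; ℤ)` which belongs to `f` has rank one). -/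
structure IsNewform (σ : K →+* ℂ) (δ : K) (n : 𝓞 K) (c : Ideal (𝓞 K) → ℂ) : Prop where
  level : n ≠ 0
  zero : c ⊥ = 0
  one : c ⊤ = 1
  bound : ∃ C : ℝ, ∀ I, ‖c I‖ ≤ C * Ideal.absNorm I
  good : ∀ v : HeightOneSpectrum (𝓞 K), n ∉ v.asIdeal → ∀ I,
    (¬ v.asIdeal ∣ I → c (v.asIdeal * I) = c v.asIdeal * c I) ∧
    c (v.asIdeal * (v.asIdeal * I)) = c v.asIdeal * c (v.asIdeal * I) -
      Ideal.absNorm v.asIdeal * c I
  bad : ∀ v : HeightOneSpectrum (𝓞 K), n ∈ v.asIdeal → ∀ I,
    c (v.asIdeal * I) = c v.asIdeal * c I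
  invariant : ∃ κ : SpecialLinearGroup (Fin 2) (𝓞 K) → ℂ,
    ∀ γ : SpecialLinearGroup (Fin 2) (𝓞 K), n ∣ γ.1 1 0 → ∀ (z : ℂ) (t : ℝ), 0 < t →
      primitive σ δ c (actZ (σ (γ.1 0 0)) (σ (γ.1 0 1)) (σ (γ.1 1 0)) (σ (γ.1 1 1)) z t)
        (actT (σ (γ.1 1 0)) (σ (γ.1 1 1)) z t) = primitive σ δ c z t + κ γ
  fricke : ∃ w κ : ℂ, w * w = 1 ∧ ∀ (z : ℂ) (t : ℝ), 0 < t →
    primitive σ δ c (actZ 0 (-1) (σ n) 0 z t) (‖σ n‖ * actT (σ n) 0 z t) =
      -w * primitive σ δ c z t + κ
  cyclic : ∃ ω ∈ Lam σ δ n c, ∀ l ∈ Lam σ δ n c, ∃ j : ℤ, l = j * ω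

/-- The number `w` of the `u ∈ 𝓞` with `u⁴ = 1`: it is `4` for `K = ℚ(i)` and `2` otherwise. -/
noncomputable def fourth (K : Type) [Field K] : ℕ := Nat.card {u : 𝓞 K // u ^ 4 = 1}

/-- The central value is odd: `Φ(0)`, the limit of `Φ(0, t)` for `t → 0`, is not in `2 w Λ`. -/
def OddCentralValue (σ : K →+* ℂ) (δ : K) (n : 𝓞 K) (c : Ideal (𝓞 K) → ℂ) : Prop :=
  ∃ z₀ : ℂ, Tendsto (fun t => primitive σ δ c 0 t) (𝓝[>] 0) (𝓝 z₀) ∧
    ∀ y ∈ Lam σ δ n c, z₀ ≠ 2 * fourth K * y

/-- The number of the affine points of `y² = x³ + a x + b` over the residue field of `v`. -/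
noncomputable def points (a b : 𝓞 K) (v : HeightOneSpectrum (𝓞 K)) : ℕ :=
  Nat.card {x : (𝓞 K ⧸ v.asIdeal) × (𝓞 K ⧸ v.asIdeal) //
    x.2 ^ 2 = x.1 ^ 3 + (Ideal.Quotient.mk v.asIdeal a) * x.1 + (Ideal.Quotient.mk v.asIdeal b)}

/-- `f` is the newform of `E : y² = x³ + a x + b`: for `v ∤ 2(4a³ + 27b²)` (so that `E` has good reduction at `v`)
the level is prime to `v` and `c(v) = N(v) + 1 - #E(𝓞/v)`. -/
def IsNewformOf (a b n : 𝓞 K) (c : Ideal (𝓞 K) → ℂ) : Prop :=
  ∀ v : HeightOneSpectrum (𝓞 K), 2 * (4 * a ^ 3 + 27 * b ^ 2) ∉ v.asIdeal →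
    n ∉ v.asIdeal ∧ c v.asIdeal = (Ideal.absNorm v.asIdeal : ℂ) - points a b v

section selmer
variable {L : Type} [Field L] [NumberField L] [Algebra K L]

/-- `L = K(θ)` is the cubic field of `E`: `θ³ + a θ + b = 0`, and every element of `L` is `u + v θ + w θ²` for
unique `u, v, w ∈ K`.  So `x³ + a x + b` is irreducible over `K`, that is, `E(K)[2] = 0`. -/
structure IsCubicField (a b : 𝓞 K) (θ : L) : Prop where
  root : θ ^ 3 + algebraMap K L a * θ + algebraMap K L b = 0
  basis : ∀ β : L, ∃! t : K × K × K,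
    β = algebraMap K L t.1 + algebraMap K L t.2.1 * θ + algebraMap K L t.2.2 * θ ^ 2

/-- The class of `α` in `(K_v ⊗ L)^×` modulo squares is in the group generated by the images of the points
`(x, y)`, `y ≠ 0`, of `E(K_v)` under the Kummer map `(x, y) ↦ x - θ`.  (This group is the image of `E(K_v)/2E(K_v)`, as
the map is a homomorphism and all classes contain points with `y ≠ 0`.) -/
def LocalCondition (a b : 𝓞 K) (θ : L) (v : HeightOneSpectrum (𝓞 K)) (α : L) : Prop :=
  ∃ s : List (v.adicCompletion K),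
    (∀ x ∈ s, ∃ y : v.adicCompletion K, y ≠ 0 ∧
      y ^ 2 = x ^ 3 + algebraMap K (v.adicCompletion K) a * x +
        algebraMap K (v.adicCompletion K) b) ∧
    IsSquare (((1 : v.adicCompletion K) ⊗ₜ[K] α) *
      (s.map fun x => x ⊗ₜ[K] (1 : L) - 1 ⊗ₜ[K] θ).prod)

/-- The `2`-Selmer group of `E/K` is trivial.  As `E(K)[2] = 0` and `K` has no real places, it is the group of the
classes of `α ∈ L^×` modulo squares such that the norm of `α` is a square, `w(α)` is even for all places
`w ∤ 2(4a³ + 27b²)` of `L`, and `α` satisfies the local conditions at the places `v ∣ 2(4a³ + 27b²)` of `K`. -/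
def TrivialSelmer (a b : 𝓞 K) (θ : L) : Prop :=
  ∀ α : L, α ≠ 0 → IsSquare (Algebra.norm K α) →
    (∀ w : HeightOneSpectrum (𝓞 L), algebraMap (𝓞 K) (𝓞 L) (2 * (4 * a ^ 3 + 27 * b ^ 2)) ∉
      w.asIdeal → IsSquare (w.valuation L α)) →
    (∀ v : HeightOneSpectrum (𝓞 K), 2 * (4 * a ^ 3 + 27 * b ^ 2) ∈ v.asIdeal →
      LocalCondition a b θ v α) → IsSquare α

end selmer

/-- The admissible primes of level `k`: `q` is an odd prime number with `2 ^ k ∣ q - 1`, which splits in `K` (the places
`v` above `q` have the norm `q`, and `q ∉ v²`), `v ∤ 2(4a³ + 27b²)` and `x³ + a x + b` has no root modulo `v` for the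
places `v` above `q`, and the norms of the places of `K` which divide `2(4a³ + 27b²)` are `2 ^ k`-th powers modulo `q`. -/
structure IsAdmissible (a b : 𝓞 K) (k q : ℕ) : Prop where
  prime : q.Prime
  odd : q ≠ 2
  level : 2 ^ k ∣ q - 1
  degree : ∀ v : HeightOneSpectrum (𝓞 K), (q : 𝓞 K) ∈ v.asIdeal → Ideal.absNorm v.asIdeal = q
  unramified : ∀ v : HeightOneSpectrum (𝓞 K), (q : 𝓞 K) ∈ v.asIdeal → (q : 𝓞 K) ∉ v.asIdeal ^ 2
  good : ∀ v : HeightOneSpectrum (𝓞 K), (q : 𝓞 K) ∈ v.asIdeal →
    2 * (4 * a ^ 3 + 27 * b ^ 2) ∉ v.asIdeal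
  root : ∀ v : HeightOneSpectrum (𝓞 K), (q : 𝓞 K) ∈ v.asIdeal →
    ∀ x : 𝓞 K, x ^ 3 + a * x + b ∉ v.asIdeal
  bad : ∀ v : HeightOneSpectrum (𝓞 K), 2 * (4 * a ^ 3 + 27 * b ^ 2) ∈ v.asIdeal →
    ∃ y : ZMod q, y ^ 2 ^ k = (Ideal.absNorm v.asIdeal : ℕ)

variable (K) in
/-- The field `K(q, k)`: the elements of the algebraic closure of `K` which are fixed by all the automorphisms over
`K` whose effect on the `q`-th roots of unity is `z ↦ z ^ (m ^ (2 ^ k))`.  (For an admissible `q` of level `k` it is the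
subfield of degree `2 ^ k` over `K` of the field of the `q`-th roots of unity over `K`.) -/
noncomputable def layer (q k : ℕ) : IntermediateField K (AlgebraicClosure K) where
  carrier := {x | ∀ s : AlgebraicClosure K ≃ₐ[K] AlgebraicClosure K,
    (∀ z : AlgebraicClosure K, z ^ q = 1 → ∃ m : ℕ, s z = z ^ m ^ 2 ^ k) → s x = x}
  mul_mem' := fun {x y} hx hy s hs => by rw [map_mul, hx s hs, hy s hs]
  one_mem' := fun s _ => map_one s
  add_mem' := fun {x y} hx hy s hs => by rw [map_add, hx s hs, hy s hs]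
  zero_mem' := fun s _ => map_zero s
  algebraMap_mem' := fun x s _ => s.commutes x
  inv_mem' := fun x hx s hs => by rw [map_inv₀, hx s hs]

variable (K) in
/-- The tower `T(S, k)`: the composite of the fields `K(q, k(q))`, `q ∈ S`. -/
noncomputable def tower (S : Set ℕ) (k : ℕ → ℕ) : IntermediateField K (AlgebraicClosure K) :=
  ⨆ q : S, layer K q (k q)

/-- `F/K` is an abelian extension of `2`-power degree, in which the places `v ∣ 2(4a³ + 27b²)` split completely (there is
an embedding of `F` in `K_v`) and which is unramified outside of the places above the primes in `S`. -/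
structure IsAbelianTwoExtension (F : Type) [Field F] [NumberField F] [Algebra K F] (S : Set ℕ)
    (a b : 𝓞 K) : Prop where
  galois : IsGalois K F
  comm : ∀ s t : F ≃ₐ[K] F, s * t = t * s
  degree : ∃ j : ℕ, Module.finrank K F = 2 ^ j
  split : ∀ v : HeightOneSpectrum (𝓞 K), 2 * (4 * a ^ 3 + 27 * b ^ 2) ∈ v.asIdeal →
    Nonempty (F →ₐ[K] v.adicCompletion K)
  unramified : ∀ v : HeightOneSpectrum (𝓞 K), (∀ q ∈ S, (q : 𝓞 K) ∉ v.asIdeal) →
    ∀ u : HeightOneSpectrum (𝓞 F), u.asIdeal.comap (algebraMap (𝓞 K) (𝓞 F)) = v.asIdeal →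
      ∀ x : K, u.valuation F (algebraMap K F x) = v.valuation K x

/-- `powerSum t q j = α ^ j + β ^ j` for `α + β = t`, `α β = q`. -/
noncomputable def powerSum (t q : ℂ) : ℕ → ℂ
  | 0 => 2
  | 1 => t
  | j + 2 => t * powerSum t q (j + 1) - q * powerSum t q j

section lfunction

variable {F : Type} [Field F] [NumberField F] [Algebra K F]

open Classical in
/-- The Euler factor of `L(E/F, s)` at the place `u` of `F`.  Let `v` be the place of `K` below `u` and
`N(u) = N(v)^f`.  If `v ∤ 2(4a³ + 27b²)`, it is `(1 - a_u N(u)^(-s) + N(u)^(1 - 2s))⁻¹`, where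
`a_u = N(u) + 1 - #E(𝓞_F/u)`.  If `v ∣ 2(4a³ + 27b²)` (these places will split completely in `F`, so that `f = 1` and
`F_u = K_v`), it is given by the eigenvalue `c(v)` of the newform of `E`:
`(1 - (α^f + β^f) N(u)^(-s) + N(u)^(1 - 2s))⁻¹` with `α + β = c(v)`, `α β = N(v)` if `v` does not divide the
level `n`, and `(1 - c(v)^f N(u)^(-s))⁻¹` if it does. -/
noncomputable def eulerFactor (a b n : 𝓞 K) (c : Ideal (𝓞 K) → ℂ) (s : ℂ)
    (u : HeightOneSpectrum (𝓞 F)) : ℂ :=
  if 2 * (4 * a ^ 3 + 27 * b ^ 2) ∈ u.asIdeal.comap (algebraMap (𝓞 K) (𝓞 F)) then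
    if n ∈ u.asIdeal.comap (algebraMap (𝓞 K) (𝓞 F)) then
      (1 - c (u.asIdeal.comap (algebraMap (𝓞 K) (𝓞 F))) ^
          (Nat.log (Ideal.absNorm (u.asIdeal.comap (algebraMap (𝓞 K) (𝓞 F))))
            (Ideal.absNorm u.asIdeal)) * (Ideal.absNorm u.asIdeal : ℂ) ^ (-s))⁻¹
    else
      (1 - powerSum (c (u.asIdeal.comap (algebraMap (𝓞 K) (𝓞 F))))
          (Ideal.absNorm (u.asIdeal.comap (algebraMap (𝓞 K) (𝓞 F))))
          (Nat.log (Ideal.absNorm (u.asIdeal.comap (algebraMap (𝓞 K) (𝓞 F))))
            (Ideal.absNorm u.asIdeal)) * (Ideal.absNorm u.asIdeal : ℂ) ^ (-s) +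
        (Ideal.absNorm u.asIdeal : ℂ) ^ (1 - 2 * s))⁻¹
  else
    (1 - ((Ideal.absNorm u.asIdeal : ℂ) -
          points (algebraMap (𝓞 K) (𝓞 F) a) (algebraMap (𝓞 K) (𝓞 F) b) u) *
          (Ideal.absNorm u.asIdeal : ℂ) ^ (-s) +
      (Ideal.absNorm u.asIdeal : ℂ) ^ (1 - 2 * s))⁻¹

variable (F) in
/-- `G` is the continuation of `L(E/F, s)`: it is an entire function, and for `Re s > 2` it is the product of the Euler
factors at all the finite places of `F`. -/
def IsLFunction (a b n : 𝓞 K) (c : Ideal (𝓞 K) → ℂ) (G : ℂ → ℂ) : Prop :=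
  Differentiable ℂ G ∧ ∀ s : ℂ, 2 < s.re →
    HasProd (fun u : HeightOneSpectrum (𝓞 F) => eulerFactor a b n c s u) (G s)

end lfunction

end field

/-- The curve `E : y² = x³ + a x + b` over the field `F`. -/
def curve {F : Type} [Field F] (a b : F) : WeierstrassCurve F := ⟨0, 0, 0, a, b⟩

section field

variable {K : Type} [Field K] [NumberField K]

/-- The curve `E : y² = x³ + a x + b` over `F`. -/
abbrev EF (F : Type) [Field F] [NumberField F] [Algebra K F] (a b : 𝓞 K) : WeierstrassCurve F :=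
  curve (algebraMap K F a) (algebraMap K F b)

open Classical in
/-- The rank part of the conjecture of Birch and Swinnerton-Dyer for `E/F`, with both sides zero, where `G` is the
continuation of `L(E/F, s)`, and the `2`-primary parts: the order of vanishing of `G` at `s = 1` is the rank of `E(F)` and
zero; `E(F)` is finite of odd order; the Tate-Shafarevich group `Ш(E/F)` (`Sha`: the continuous cocycles of the absolute
Galois group with values in the points over an algebraic closure which are coboundaries at all the places, modulo the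
coboundaries) has no element of order two, hence its `2`-primary part is zero; and `H¹_f(F, V_2 E) = 0`. -/
structure Conclusion (F : Type) [Field F] [NumberField F] [Algebra K F] (a b : 𝓞 K) (G : ℂ → ℂ) :
    Prop where
  rank : analyticOrderAt G 1 = ((Module.finrank ℤ (EF F a b).toAffine.Point : ℕ) : ℕ∞)
  zero : analyticOrderAt G 1 = 0
  finite : Finite (EF F a b).toAffine.Point
  odd : Odd (Nat.card (EF F a b).toAffine.Point)
  sha : ∀ (k : ℕ) (s : Pool.Agent.TH841.NF.D.Sha (EF F a b)), (2 ^ k : ℕ) • s = 0 → s = 0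
  h1f : ∀ x : Pool.Agent.Y667.BKP.H1f 2 (EF F a b), x = 0

end field

open Classical in
/-- The parts of the conclusion. -/
lemma conclusion_of {K : Type} [Field K] [NumberField K] {F : Type} [Field F] [NumberField F]
    [Algebra K F] {a b : 𝓞 K} {G : ℂ → ℂ} (hG1 : G 1 ≠ 0)
    (h1 : Finite (EF F a b).toAffine.Point) (h1' : Odd (Nat.card (EF F a b).toAffine.Point))
    (h2 : ∀ (k : ℕ) (s : Pool.Agent.TH841.NF.D.Sha (EF F a b)), (2 ^ k : ℕ) • s = 0 → s = 0)
    (h3 : ∀ x : Pool.Agent.Y667.BKP.H1f 2 (EF F a b), x = 0) : Conclusion F a b G := by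
  have hrk : Module.finrank ℤ (EF F a b).toAffine.Point = 0 := by
    apply Module.IsTorsion.finrank_eq_zero
    intro P
    refine ⟨⟨(Nat.card (EF F a b).toAffine.Point : ℤ), ?_⟩, ?_⟩
    · rw [mem_nonZeroDivisors_iff_ne_zero]
      exact_mod_cast Nat.card_pos.ne'
    · show (Nat.card (EF F a b).toAffine.Point : ℤ) • P = 0
      rw [natCast_zsmul]
      exact card_nsmul_eq_zero'
  have hord : analyticOrderAt G 1 = 0 := analyticOrderAt_eq_zero.2 (Or.inr hG1)
  exact ⟨by rw [hord, hrk]; rfl, hord, h1, h1', h2, h3⟩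

/-- **Theorem.** Let `K` be an imaginary quadratic field of class number one, `E : y² = x³ + a x + b` an elliptic
curve over `K` with the Bianchi newform `f` of level `(n)` and eigenvalues `c`.  Suppose that `E(K)[2] = 0`, the
`2`-Selmer group of `E/K` is trivial and the central value of `f` is odd.  Then `L(E/K, s)` is continued to an entire
function `G₀`, with `G₀(1) = (2π/|σ δ|)² Φ(0) / #𝓞ˣ ≠ 0`.

(1) For every `k` the admissible primes of level `k` have a positive lower density among the primes.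

(2) Let `S` be a set of prime numbers and `k` a function such that each `q ∈ S` is admissible of level `k(q)`.
(a) All the number fields `K ⊆ F ⊆ T(S, k)` are abelian extensions of `K` of `2`-power degree in which the bad places
split completely; `L(E/F, s)` is continued to an entire function `G`, the rank part of the conjecture of Birch and
Swinnerton-Dyer holds for `E/F`, with both sides zero, `E(F)` is finite of odd order, `Ш(E/F)[2^∞] = 0`, and
`y G(1) = x G₀(1) ^ [F:K]` with algebraic integers `x`, `y` prime to `2`.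
(b) `Gal(T(S', k)/K) ≅ ∏_{q ∈ S'} ℤ/2^{k(q)}` for all finite subsets `S'` of `S`.
(c) If for all `m` there are infinitely many `q ∈ S` with `k(q) ≥ m`, every nontrivial finite abelian `2`-group is the
Galois group over `K` of infinitely many number fields `K ⊂ F ⊂ T(S, k)`.

(3) There are `S` and `k` as in (2) with the property in (c). -/
theorem result (K : Type) [Field K] [NumberField K] [IsPrincipalIdealRing (𝓞 K)] (σ : K →+* ℂ)
    (δ : K) (hK : IsFieldData K σ δ) (a b n : 𝓞 K) (hΔ : 4 * a ^ 3 + 27 * b ^ 2 ≠ 0)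
    (c : Ideal (𝓞 K) → ℂ) (hf : IsNewform σ δ n c) (hE : IsNewformOf a b n c)
    (hodd : OddCentralValue σ δ n c)
    (L : Type) [Field L] [NumberField L] [Algebra K L] (θ : L)
    (hθ : IsCubicField a b θ) (hS : TrivialSelmer a b θ) :
    ∃ G₀ : ℂ → ℂ, IsLFunction K a b n c G₀ ∧ G₀ 1 ≠ 0 ∧
    (∃ z₀ : ℂ, Tendsto (fun t => primitive σ δ c 0 t) (𝓝[>] 0) (𝓝 z₀) ∧
      G₀ 1 = (2 * Real.pi / ‖σ δ‖) ^ 2 / (Nat.card (𝓞 K)ˣ : ℂ) * z₀) ∧
    (∀ k : ℕ, ∃ d : ℝ, 0 < d ∧ ∀ᶠ N : ℕ in atTop,
      d * (N / Real.log N) ≤ Nat.card {q : ℕ // q ≤ N ∧ IsAdmissible a b k q}) ∧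
    (∀ (S : Set ℕ) (k : ℕ → ℕ), (∀ q ∈ S, IsAdmissible a b (k q) q) →
      (∀ (F : IntermediateField K (AlgebraicClosure K)) [NumberField F], F ≤ tower K S k →
        IsAbelianTwoExtension F S a b ∧
        ∃ (G : ℂ → ℂ) (x y : integralClosure ℤ ℂ), IsLFunction F a b n c G ∧ Conclusion F a b G ∧
          IsCoprime x 2 ∧ IsCoprime y 2 ∧ y * G 1 = x * G₀ 1 ^ Module.finrank K F) ∧
      (∀ S' : Finset ℕ, (S' : Set ℕ) ⊆ S →
        Nonempty ((tower K (S' : Set ℕ) k ≃ₐ[K] tower K (S' : Set ℕ) k) ≃*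
          ((q : S') → Multiplicative (ZMod (2 ^ k q))))) ∧
      ((∀ m, {q | q ∈ S ∧ m ≤ k q}.Infinite) →
        ∀ (A : Type) [CommGroup A] [Finite A] [Nontrivial A] (N : ℕ), Nat.card A = 2 ^ N →
          {F : IntermediateField K (AlgebraicClosure K) | F ≤ tower K S k ∧ NumberField F ∧
            Nonempty ((F ≃ₐ[K] F) ≃* A)}.Infinite)) ∧
    ∃ (S : Set ℕ) (k : ℕ → ℕ), (∀ q ∈ S, IsAdmissible a b (k q) q) ∧
      ∀ m, {q | q ∈ S ∧ m ≤ k q}.Infinite := by
  classical
  have h : K4H55.BI.IQ K σ δ := ⟨hK.quadratic, hK.imaginary, inferInstance, hK.different⟩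
  have hf' : K4H55.BI.BF σ δ n c := ⟨hf.level, hf.zero, hf.one, hf.bound, hf.good, hf.bad,
    hf.invariant, hf.fricke⟩
  have hcub : K4H55.BD.Cub K θ := by
    refine ⟨fun p q r h0 => ?_, fun β => ?_⟩
    · obtain ⟨t, ht, hu⟩ := hθ.basis 0
      have h1 := hu (p, q, r) h0.symm
      have h2 := hu (0, 0, 0) (by simp)
      have h3 := h1.trans h2.symm
      simp only [Prod.mk.injEq] at h3
      exact h3
    · obtain ⟨t, ht, -⟩ := hθ.basis β
      exact ⟨t.1, t.2.1, t.2.2, ht⟩
  obtain ⟨ω, hω', hω⟩ := hf.cyclic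
  obtain ⟨z, hz, hzo⟩ := hodd
  have hE' : ∀ v : HeightOneSpectrum (𝓞 K), 2 * (4 * a ^ 3 + 27 * b ^ 2) ∉ v.asIdeal →
      n ∉ v.asIdeal ∧ c v.asIdeal = (Ideal.absNorm v.asIdeal : ℂ) - K4H55.BD.pv a b v :=
    fun v hv => hE v hv
  -- the admissible primes
  have hiff : ∀ k q : ℕ, IsAdmissible a b k q ↔ q ∈ K4H55.BD.QE h a b n ∧ U81.AT.Bd a b k q := by
    intro k q
    rw [U81.MQ.qe_iff h hE']
    constructor
    · intro h1
      exact ⟨⟨h1.prime, h1.odd, fun v hv => ⟨h1.degree v hv, h1.unramified v hv, h1.good v hv,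
        h1.root v hv⟩⟩, h1.level, h1.bad⟩
    · rintro ⟨⟨h1, h2, h3⟩, h4, h5⟩
      exact ⟨h1, h2, h4, fun v hv => (h3 v hv).1, fun v hv => (h3 v hv).2.1,
        fun v hv => (h3 v hv).2.2.1, fun v hv => (h3 v hv).2.2.2, h5⟩
  -- the Euler factors
  have hps : ∀ (t q : ℂ) (j : ℕ), powerSum t q j = K4H55.CX.luc t q j := by
    intro t q j
    induction j using Nat.twoStepInduction with
    | zero => rfl
    | one => rfl
    | more j h1 h2 => rw [powerSum, K4H55.CX.luc, h1, h2]
  have hef : ∀ (M : Type) [Field M] [NumberField M] [Algebra K M] (s : ℂ)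
      (u : HeightOneSpectrum (𝓞 M)), eulerFactor a b n c s u = U81.BX.fct a b n c s u := by
    intro M _ _ _ s u
    unfold eulerFactor U81.BX.fct K4H55.CX.facF
    simp only [hps]
    rfl
  have hz0 : z ≠ 0 := by
    have := hzo 0 (AddSubgroup.zero_mem _)
    rwa [mul_zero] at this
  obtain ⟨G₀, k1, k2, k3⟩ := K4H55.CX.chr_one h hf' hz
  have hG0 : G₀ 1 ≠ 0 := by
    rw [k3]
    exact mul_ne_zero (K4H55.CX.A_ne h) hz0
  refine ⟨G₀, ⟨k1, fun s hs => ?_⟩, hG0, ⟨z, hz, k3⟩, fun k => ?_, fun S k hSk => ⟨fun F _ hF => ?_, fun S' hS' => ?_, fun hinf A _ _ _ N hA => ?_⟩,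
    ?_⟩
  · have h5 := k2 s hs
    refine (congrArg (fun g => HasProd g (G₀ s)) (funext fun v => ?_)).mp h5
    rw [hef K s v, U81.BX.fct_self hE' s v]
  · obtain ⟨⟨d, hd, h1⟩, -⟩ := U81.AT.dens_top h hΔ hf.level hcub hθ.root k
    refine ⟨d, hd, ?_⟩
    filter_upwards [h1] with M hM
    refine hM.trans (le_of_eq ?_)
    congr 1
    exact Nat.card_congr (Equiv.subtypeEquivRight fun q => and_congr_right fun _ => (hiff k q).symm)
  · obtain ⟨⟨l1, l2, l3, l4, l5⟩, G, x, y, g1, g2, g3, g4, g5, hG1, ⟨h1, h1'⟩, h2, h3⟩ :=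
      U81.AT.main h hΔ hf' hE' hz hω hω' hzo hcub hθ.root hS
        (fun q hq => ((hiff _ _).1 (hSk q hq)).1) (fun q hq => (hSk q hq).bad) F hF
    refine ⟨⟨l1, l2, l3, l4, fun v hv u hu x => ?_⟩, G, x, y, ⟨g1, fun s hs => ?_⟩,
      conclusion_of hG1 h1 h1' h2 h3, g3, g4, by rw [k3]; exact g5⟩
    · have hlow : K4H55.BD.low (K := K) u = v := HeightOneSpectrum.ext hu
      subst hlow
      exact l5 u hv x
    · refine (congrArg (fun g => HasProd g (G s)) (funext fun v => ?_)).mp (g2 s hs)
      exact (hef F s v).symm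
  · exact U81.AT.tow_gal (fun q hq => (hSk q (hS' hq)).prime)
      (fun q hq => U81.AT.val_of h ((hiff _ _).1 (hSk q (hS' hq))).1.1)
      (fun q hq => (hSk q (hS' hq)).level)
  · exact U81.AT.realize (fun q hq => (hSk q hq).prime)
      (fun q hq => U81.AT.val_of h ((hiff _ _).1 (hSk q hq)).1.1)
      (fun q hq => (hSk q hq).level) hinf hA
  · refine U81.AT.exists_levels (P := fun k q => IsAdmissible a b k q) fun m => ?_
    have h1 := (U81.AT.dens_top h hΔ hf.level hcub hθ.root m).2
    refine h1.mono fun q hq => ?_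
    exact (hiff m q).2 hq

end Pool.Agent.Results.MP_9ab903_nt.AbelianTwoTowers
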