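import Mathlib
import Pool.Agent.Results.MP_9ab903_nt.TwoPartQuarticProportion
import Pool.Agent.U707.GS.Inf

/-!
# The 2-part of the strong Birch and Swinnerton-Dyer conjecture over `ℚ(i)` for products of primes from
# arbitrary sets

`K` is a number field with an isomorphism `e` of the ring `ℤ[i]` of Gaussian integers with its ring
of integers (so `K = ℚ(i)`), and `E_D : y² = x³ + D x`, an elliptic curve over `K` with `j = 1728`.

A primary (`1` modulo `2 + 2i`) Gaussian integer `D` is called *indecomposable* if it is not the product of two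
primary Gaussian integers `d, d' ≠ 1` which are squares modulo each other. By a theorem of the starting library
(`MP_9ab903_nt.TwoPartQuarticProportion.curve_good`), if `D` is in addition squarefree with norm `13` modulo `16`,
then `E_D(K)` has exactly two elements, the 2-primary part of `Ш(E_D/K)` is trivial, the `L`-function is entire
with `L(E_D/K, 1) ≠ 0`, and the strong conjecture holds up to units at the valuations above `2`.

Which products of primes of a GIVEN set are indecomposable? The known result (`ExactShareQuarticTwists`) is a mean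
value over all `D`. Here the sets of primes are arbitrary.

* FINITE SETS, EXACT LAW. For arbitrary sets `T_1, ..., T_k` of at most `n` primary primes of norm at most `X` the
  proportion of the products `D = π_1 ⋯ π_k`, `π_i ∈ T_i`, of the class (squarefree, norm `13` modulo `16`)
  which are indecomposable is `c_k = ∏_{i < [k/2]} (1 - 2^{-2i-1})`, up to an error (relative to `n ^ k`) of
  `24 * 2 ^ (k ^ 2 + 4 k) X ^ (1/2) n ^ (-7/12)`. This is a power saving if the sets have more than `X ^ (6/7 + t)`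
  elements, for instance all primes of a short interval of norms or of a narrow sector, or any thin subset.
* THE SAME WITH A BASE. For every squarefree primary `D₀` (whatever its descent looks like) with less than `k` prime
  factors the proportion of the tuples with `D₀ π_1 ⋯ π_k` indecomposable, among those for which no divisor
  `d ≠ 1` of `D₀` is a square modulo all `π_i`, is `c = 0.4194...` up to `2 ^ (ω(D₀) + 1 - k)` and a similar error.
* INFINITE SETS. Let `D₀` be an indecomposable member of the class. An ARBITRARY set `S` of primary primes has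
  an infinite subset `T` such that for ALL finite subsets `A` of `T` whose number of elements is divisible
  by four `D₀ ∏ A` is an indecomposable member of the class, if and only if `D₀` is not a square modulo infinitely
  many primes of `S`.

The proof: the law of the kernel of the Laplacian of random symmetric matrices (library `U695/XG`, helper695, after
project XK), the equidistribution of the symbols of tuples from the bilinear sums; a bilinear estimate for arbitrary
sets of primes (Hölder, sixth powers, and the elementary bound for character sums over discs of `Y699`);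
the theorem of Ramsey and an extension lemma for Laplacians (after helper693's `U693/X49`, there for twists of
`X_0(49)` over `ℚ`). helper707, `Pool/Agent/U707/GS`.
-/

set_option autoImplicit false

open scoped Classical

namespace Pool.Agent.Results.MP_9ab903_nt.ArbitrarySetsOfPrimes

open Finset NumberField
open Pool.Agent.Results.MP_9ab903_nt.TwoPartQuarticProportion (curve TwoPart)

/-- `D ≡ 1 mod 2 + 2i`. -/
def Primary (D : GaussianInt) : Prop := (⟨2, 2⟩ : GaussianInt) ∣ D - 1

/-- the primary primes -/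
def PrimaryPrime (π : GaussianInt) : Prop := Prime π ∧ Primary π

/-- `a` is a square modulo `m` -/
def SquareModulo (a m : GaussianInt) : Prop := ∃ b : GaussianInt, m ∣ a - b ^ 2

/-- `D` is not a product of two primary elements different from `1` which are squares modulo each
other -/
def Indecomposable (D : GaussianInt) : Prop :=
  ∀ d d' : GaussianInt, Primary d → Primary d' → D = d * d' → SquareModulo d' d →
    SquareModulo d d' → d = 1 ∨ d' = 1

/-- the primary squarefree Gaussian integers with norm `13` modulo `16` -/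
def InClass (D : GaussianInt) : Prop := Primary D ∧ Squarefree D ∧ D.norm % 16 = 13

/-- the conclusion for the curve `y² = x³ + D x` over `K = ℚ(i)`: exactly two points, and the strong
conjecture up to units at the valuations above `2`, the 2-primary part of `Ш` being trivial -/
def Strong (D : GaussianInt) : Prop :=
  ∀ (K : Type) [Field K] [NumberField K] (e : GaussianInt ≃+* 𝓞 K),
    Nat.card (curve e D).toAffine.Point = 2 ∧ TwoPart (curve e D)

/-- the number of the primary primes which divide `D` -/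
noncomputable def omega (D : GaussianInt) : ℕ := {π : GaussianInt | PrimaryPrime π ∧ π ∣ D}.ncard

/-- no divisor `d ≠ 1` of `D₀` is a square modulo all `p i` -/
def NoSquare {k : ℕ} (D₀ : GaussianInt) (p : Fin k → GaussianInt) : Prop :=
  ∀ d : GaussianInt, Primary d → d ∣ D₀ → d ≠ 1 → ∃ i, ¬ SquareModulo d (p i)

/-- `T_1, ..., T_k` are sets of at most `n` primary primes of norm at most `X` -/
def Sets (k X n : ℕ) (T : Fin k → Finset GaussianInt) : Prop :=
  1 ≤ k ∧ 1 ≤ X ∧ 1 ≤ n ∧ ∀ i, (T i).card ≤ n ∧ ∀ π ∈ T i, PrimaryPrime π ∧ π.norm ≤ X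

/-- the number of the tuples `(π_1, ..., π_k)`, `π_i ∈ T_i`, with the property `P` -/
noncomputable def number {k : ℕ} (T : Fin k → Finset GaussianInt) (P : (Fin k → GaussianInt) → Prop) :
    ℕ := ((Fintype.piFinset T).filter P).card

/-- the constant `c_k = ∏_{i < [k/2]} (1 - 2^{-2i-1})` -/
noncomputable def share (k : ℕ) : ℝ := ∏ i ∈ range (k / 2), (1 - (1 / 2 : ℝ) ^ (2 * i + 1))

/-- the constant `c = (1 - 1/2) (1 - 1/8) (1 - 1/32) ⋯` -/
noncomputable def c : ℝ := ∏' i : ℕ, (1 - (1 / 2 : ℝ) ^ (2 * i + 1))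

/-- the error -/
noncomputable def err (k h X n : ℕ) : ℝ :=
  24 * 2 ^ (k ^ 2 + (4 + h) * k) * ((X : ℝ) ^ (1 / 2 : ℝ) * (n : ℝ) ^ (-(7 / 12) : ℝ) * (n : ℝ) ^ k)

section proof

open Pool.Agent.U707.GS
open Pool.Agent.Y699 (PP PD mem_PD PS)
open Pool.Agent.U695.XG (Gd c2)
open H385 (nrm)

theorem prim_iff {D : GaussianInt} : Primary D ↔ Pool.Agent.H304R2.EC.A1.prim D :=
  (Pool.Agent.W164.RC.prim_iff_dvd D).symm

theorem pp_iff {π : GaussianInt} : PrimaryPrime π ↔ PP π :=
  ⟨fun h => ⟨h.1, prim_iff.1 h.2⟩, fun h => ⟨h.pr, prim_iff.2 h.prm⟩⟩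

theorem ps_iff {D : GaussianInt} : Primary D ∧ Squarefree D ↔ PS D :=
  ⟨fun h => ⟨prim_iff.1 h.1, h.2⟩, fun h => ⟨prim_iff.2 h.prm, h.sqf⟩⟩

theorem nrm_le {D : GaussianInt} {X : ℕ} : D.norm ≤ X ↔ nrm D ≤ X := by
  rw [← Pool.Agent.Y699.nrm_cast D]
  exact Nat.cast_le

theorem norm_iff (D : GaussianInt) : D.norm % 16 = 13 ↔ (nrm D : ZMod 16) = 13 := by
  have h1 := Pool.Agent.Y699.nrm_cast D
  have h2 : (nrm D : ZMod 16) = 13 ↔ nrm D % 16 = 13 % 16 :=
    ZMod.natCast_eq_natCast_iff' (nrm D) 13 16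
  rw [h2]
  omega

theorem omega_eq {D : GaussianInt} (hD : D ≠ 0) : omega D = (PD D).card := by
  unfold omega
  rw [← Set.ncard_coe_finset]
  congr 1
  ext π
  rw [Finset.mem_coe, mem_PD hD]
  exact and_congr pp_iff Iff.rfl

theorem ind_iff {D : GaussianInt} : Indecomposable D ↔ Pool.Agent.U695.XG.Crt.Ind D := Iff.rfl

theorem criterion (D : GaussianInt) (h : InClass D) (hi : Indecomposable D) : Strong D := by
  intro K _ _ e
  have h1 : PS D := ps_iff.1 ⟨h.1, h.2.1⟩
  exact Pool.Agent.Results.MP_9ab903_nt.TwoPartQuarticProportion.curve_good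
    (Pool.Agent.U695.XG.NSf.good4_iff.2 ⟨Pool.Agent.U695.XG.NSf.el13.2 ⟨h1, h.2.2⟩,
      (Pool.Agent.U695.XG.Crt.ind_iff h1).1 hi⟩) K e

theorem primary_mul {k : ℕ} {D₀ : GaussianInt} (h0 : Primary D₀) {p : Fin k → GaussianInt}
    (hp : ∀ i, PP (p i)) : Primary (D₀ * ∏ i, p i) := by
  rw [prim_iff] at h0 ⊢
  exact Pool.Agent.H304R2.EC.A1.prim_mul h0 (Finset.prod_induction _ _
    (fun a b => Pool.Agent.H304R2.EC.A1.prim_mul) Pool.Agent.H304R2.EC.A1.prim_one
    fun i _ => (hp i).prm)

theorem number_congr {k : ℕ} {T : Fin k → Finset GaussianInt} {P Q : (Fin k → GaussianInt) → Prop}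
    [DecidablePred Q] (h : ∀ p, (∀ i, p i ∈ T i) → (P p ↔ Q p)) :
    number T P = ((Fintype.piFinset T).filter Q).card := by
  unfold number
  congr 1
  ext p
  rw [mem_filter, mem_filter, Fintype.mem_piFinset]
  exact and_congr_right fun hp => h p hp

theorem law {k X n : ℕ} {T : Fin k → Finset GaussianInt} (hs : Sets k X n T) {D₀ : GaussianInt}
    (h0 : Primary D₀) (h0' : Squarefree D₀) (N : (Fin k → GaussianInt) → Prop)
    (N' : (Fin k → PD D₀ → ZMod 2) → Prop)
    (hN : ∀ p : Fin k → GaussianInt, (∀ i, PP (p i)) → (∀ i, p i ∉ PD D₀) →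
      (N p ↔ N' fun i u => Pool.Agent.U695.XG.cs u (p i)))
    (a δ : ℝ) (ha0 : 0 ≤ a) (ha1 : a ≤ 1) (hδ : 0 ≤ δ) (hδ1 : δ ≤ 2)
    (hch : ∀ l : Fin k → PD D₀ → ZMod 2, N' l → |ch (QQ (PD D₀) l) - a| ≤ δ) :
    |(number T (fun p => (InClass (D₀ * ∏ i, p i) ∧ N p) ∧ Indecomposable (D₀ * ∏ i, p i)) : ℝ) -
      a * number T (fun p => InClass (D₀ * ∏ i, p i) ∧ N p)| ≤
    δ * number T (fun p => InClass (D₀ * ∏ i, p i) ∧ N p) + err k (PD D₀).card X n := by
  obtain ⟨hk, hX, hn, hT⟩ := hs
  have hT' : ∀ i, ∀ π ∈ T i, PP π ∧ nrm π ≤ X := fun i π hπ =>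
    ⟨pp_iff.1 ((hT i).2 π hπ).1, nrm_le.1 ((hT i).2 π hπ).2⟩
  have h := count hk (ps_iff.1 ⟨h0, h0'⟩) T hX hn hT' (fun i => (hT i).1) 13 N N' hN a δ ha0 ha1 hδ hδ1
    hch
  have e1 : number T (fun p => InClass (D₀ * ∏ i, p i) ∧ N p) =
      ((Fintype.piFinset T).filter fun p => Squarefree (D₀ * ∏ i, p i) ∧
        (nrm (D₀ * ∏ i, p i) : ZMod 16) = 13 ∧ N p).card := by
    refine number_congr fun p hp => ?_
    have h1 := primary_mul h0 fun i => (hT' i _ (hp i)).1
    unfold InClass
    rw [norm_iff]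
    tauto
  have e2 : number T (fun p => (InClass (D₀ * ∏ i, p i) ∧ N p) ∧ Indecomposable (D₀ * ∏ i, p i)) =
      ((Fintype.piFinset T).filter fun p => (Squarefree (D₀ * ∏ i, p i) ∧
        (nrm (D₀ * ∏ i, p i) : ZMod 16) = 13 ∧ N p) ∧
          Pool.Agent.U695.XG.Crt.Ind (D₀ * ∏ i, p i)).card := by
    refine number_congr fun p hp => ?_
    have h1 := primary_mul h0 fun i => (hT' i _ (hp i)).1
    rw [ind_iff]
    unfold InClass
    rw [norm_iff]
    tauto
  rw [e1, e2]
  unfold err
  exact h

theorem share_eq {k : ℕ} (hk : 1 ≤ k) : Pool.Agent.U695.XG.LA.sp (k - 1) = share k := by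
  unfold Pool.Agent.U695.XG.LA.sp share
  rw [Nat.sub_add_cancel hk]

theorem factor_mem (i : ℕ) : 0 ≤ 1 - (1 / 2 : ℝ) ^ (2 * i + 1) ∧ 1 - (1 / 2 : ℝ) ^ (2 * i + 1) ≤ 1 := by
  constructor
  · have : (1 / 2 : ℝ) ^ (2 * i + 1) ≤ 1 := pow_le_one₀ (by norm_num) (by norm_num)
    linarith
  · have : (0 : ℝ) ≤ (1 / 2 : ℝ) ^ (2 * i + 1) := by positivity
    linarith

theorem share_nonneg (k : ℕ) : 0 ≤ share k := prod_nonneg fun i _ => (factor_mem i).1

theorem share_le (k : ℕ) : share k ≤ 1 := prod_le_one (fun i _ => (factor_mem i).1) fun i _ => (factor_mem i).2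

theorem c_le (m : ℕ) : c ≤ ∏ i ∈ range m, (1 - (1 / 2 : ℝ) ^ (2 * i + 1)) := by
  have hanti : Antitone fun m : ℕ => ∏ i ∈ range m, (1 - (1 / 2 : ℝ) ^ (2 * i + 1)) :=
    antitone_nat_of_succ_le fun m => by
      rw [prod_range_succ]
      exact mul_le_of_le_one_right (prod_nonneg fun i _ => (factor_mem i).1) (factor_mem m).2
  have hlim : Filter.Tendsto (fun m : ℕ => ∏ i ∈ range m, (1 - (1 / 2 : ℝ) ^ (2 * i + 1)))
      Filter.atTop (nhds c) := by
    rw [tendsto_iff_dist_tendsto_zero]
    refine squeeze_zero (fun m => dist_nonneg) (fun m => ?_)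
      (tendsto_pow_atTop_nhds_zero_of_lt_one (show (0 : ℝ) ≤ 1 / 4 by norm_num) (by norm_num))
    rw [Real.dist_eq]
    exact t_C2.1 m
  exact hanti.le_of_tendsto hlim m

end proof

/-- **Main theorem.** Let `0.4194 < c < 0.4195` be the constant above.

1. If `D` is primary, squarefree, with norm `13` modulo `16`, and indecomposable, then `y² = x³ + D x` has exactly
   two points over `ℚ(i)` and satisfies `TwoPart` (library).
2. For arbitrary sets `T_1, ..., T_k` of at most `n` primary primes of norm at most `X` the number of the tuples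
   for which `π_1 ⋯ π_k` is in the class and indecomposable is `c_k` times the number of those for which it
   is in the class, up to `err k 0 X n`; `c ≤ c_k ≤ c + 4 ^ (-[k/2])`.
3. The same for `D₀ π_1 ⋯ π_k` and the tuples for which no divisor `d ≠ 1` of `D₀` is a square modulo all `π_i`.
4. An arbitrary set `S` of primary primes has an infinite subset `T` such that for all finite `A ⊆ T` with `4 ∣ #A`
   the product `D₀ ∏ A` is an indecomposable member of the class iff `D₀` is not a square modulo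
   infinitely many `π ∈ S`. -/
theorem result :
    (∀ D : GaussianInt, InClass D → Indecomposable D → Strong D) ∧
    (0.4194 < c ∧ c < 0.4195 ∧ ∀ k : ℕ, c ≤ share k ∧ share k ≤ c + (1 / 4) ^ (k / 2)) ∧
    (∀ (k X n : ℕ) (T : Fin k → Finset GaussianInt), Sets k X n T →
      |(number T (fun p => InClass (∏ i, p i) ∧ Indecomposable (∏ i, p i)) : ℝ) -
        share k * number T (fun p => InClass (∏ i, p i))| ≤ err k 0 X n) ∧
    (∀ (k X n : ℕ) (T : Fin k → Finset GaussianInt), Sets k X n T →
      ∀ D₀ : GaussianInt, Primary D₀ → Squarefree D₀ → omega D₀ < k →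
      |(number T (fun p => InClass (D₀ * ∏ i, p i) ∧ NoSquare D₀ p ∧
          Indecomposable (D₀ * ∏ i, p i)) : ℝ) -
        c * number T (fun p => InClass (D₀ * ∏ i, p i) ∧ NoSquare D₀ p)| ≤
      2 ^ (omega D₀ + 1) / 2 ^ k * number T (fun p => InClass (D₀ * ∏ i, p i) ∧ NoSquare D₀ p) +
        err k (omega D₀) X n) ∧
    (∀ D₀ : GaussianInt, InClass D₀ → Indecomposable D₀ → ∀ S : Set GaussianInt,
      (∀ π ∈ S, PrimaryPrime π ∧ ¬ π ∣ D₀) →
      ((∃ T ⊆ S, T.Infinite ∧ ∀ A : Finset GaussianInt, (A : Set GaussianInt) ⊆ T → 4 ∣ A.card →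
          InClass (D₀ * ∏ π ∈ A, π) ∧ Indecomposable (D₀ * ∏ π ∈ A, π)) ↔
        {π ∈ S | ¬ SquareModulo D₀ π}.Infinite)) := by
  have hc2 : c = Pool.Agent.U695.XG.c2 := rfl
  have hb := Pool.Agent.U707.GS.t_C2
  refine ⟨criterion, ⟨hb.2.2.2.1, hb.2.2.2.2, fun k => ⟨c_le _, ?_⟩⟩, ?_, ?_, ?_⟩
  · have h := hb.1 (k / 2)
    rw [← hc2] at h
    have h1 := (abs_le.1 h).2
    have h2 : share k = ∏ i ∈ range (k / 2), (1 - (1 / 2 : ℝ) ^ (2 * i + 1)) := rfl
    rw [← h2] at h1
    linarith
  · intro k X n T hs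
    have hk := hs.1
    have hPD : Pool.Agent.Y699.PD 1 = ∅ := Pool.Agent.Y699.PD_one
    have hemp : IsEmpty (Pool.Agent.Y699.PD (1 : GaussianInt)) := by
      rw [hPD]
      infer_instance
    have h := law hs (D₀ := 1) ⟨0, by simp⟩ squarefree_one (fun _ => True) (fun _ => True)
      (fun _ _ _ => Iff.rfl) (share k) 0 (share_nonneg k) (share_le k) le_rfl (by norm_num)
      (fun l _ => by
        have h1 : Pool.Agent.U707.GS.ch (Pool.Agent.U707.GS.QQ (Pool.Agent.Y699.PD (1 : GaussianInt)) l) =
            Pool.Agent.U695.XG.LA.sp (Fintype.card (Fin k) - 1) :=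
          Pool.Agent.U707.GS.ch_empty (⟨0, hk⟩ : Fin k) _ _
        rw [h1, Fintype.card_fin, share_eq hk, sub_self, abs_zero])
    simp only [one_mul, and_true, zero_mul, zero_add] at h
    rw [hPD, card_empty] at h
    exact h
  · intro k X n T hs D₀ h0 h0' hω
    have hPS : Pool.Agent.Y699.PS D₀ := ps_iff.1 ⟨h0, h0'⟩
    rw [omega_eq hPS.ne] at hω ⊢
    obtain ⟨h, hh⟩ : ∃ h, h = (Pool.Agent.Y699.PD D₀).card := ⟨_, rfl⟩
    have hδ : (2 : ℝ) ^ ((Pool.Agent.Y699.PD D₀).card + 1) / 2 ^ k ≤ 2 := by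
      rw [div_le_iff₀ (by positivity), ← pow_succ']
      exact pow_le_pow_right₀ (by norm_num) (by omega)
    have h := law hs (D₀ := D₀) h0 h0' (fun p => NoSquare D₀ p)
      (fun l => ∀ w : Pool.Agent.Y699.PD D₀ → ZMod 2, (∃ u, w u ≠ 0) → ∃ i, ∑ u, w u * l i u ≠ 0)
      (fun p hp hn => Pool.Agent.U707.GS.nd_tuple hPS hp hn) c
      (2 ^ ((Pool.Agent.Y699.PD D₀).card + 1) / 2 ^ k) (by rw [hc2]; exact hb.2.1.le)
      (by rw [hc2]; exact hb.2.2.1.le) (by positivity) hδ
      (fun l hl => by
        have h1 := Pool.Agent.U707.GS.ch_base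
          (fun u v : Pool.Agent.Y699.PD D₀ => Pool.Agent.U695.XG.cs u v)
          (fun (u : Pool.Agent.Y699.PD D₀) i => l i u)
          (by rw [Fintype.card_coe, Fintype.card_fin]; exact hω)
          (fun u v => Pool.Agent.U695.XG.cs_symm ((Pool.Agent.Y699.mem_PD hPS.ne).1 u.2).1
            ((Pool.Agent.Y699.mem_PD hPS.ne).1 v.2).1) hl
        rw [Fintype.card_coe, Fintype.card_fin] at h1
        refine h1.trans (le_of_eq ?_)
        rw [pow_succ]
        ring)
    simp only [and_assoc] at h
    exact h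
  · intro D₀ hD hi S hS
    have hPS : Pool.Agent.Y699.PS D₀ := ps_iff.1 ⟨hD.1, hD.2.1⟩
    have h := Pool.Agent.U707.GS.inf_iff hPS 13 ((norm_iff D₀).1 hD.2.2)
      ((Pool.Agent.U695.XG.Crt.ind_iff hPS).1 hi) S (fun π hπ => ⟨pp_iff.1 (hS π hπ).1, (hS π hπ).2⟩)
    refine Iff.trans ?_ h
    refine exists_congr fun T => and_congr_right fun hT => and_congr_right fun _ =>
      forall_congr' fun A => forall_congr' fun _ => forall_congr' fun _ => ?_
    unfold InClass
    rw [norm_iff, ← and_assoc, ps_iff, and_assoc]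
    refine and_congr_right fun h1 => and_congr_right fun _ => ?_
    exact Pool.Agent.U695.XG.Crt.ind_iff h1

end Pool.Agent.Results.MP_9ab903_nt.ArbitrarySetsOfPrimes
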