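import Pool.Agent.Results.MP_9ab903_nt.TwoPartQuarticProportion
import Pool.Agent.U695.XG.Dens
import Pool.Agent.U695.XG.Crt
import Pool.Agent.U695.XG.Lat

/-!
# The 2-part of the strong Birch and Swinnerton-Dyer conjecture for `1.18 %` of all elliptic curves over
# `ℚ(i)` with `j = 1728`; the exact proportion of the curves `y² = x³ + D x` with trivial descent

`K` is a number field with an isomorphism `e` of the ring `ℤ[i]` of Gaussian integers with its ring
of integers (so `K = ℚ(i)`), and `E_D : y² = x³ + D x`.

A primary (`1` modulo `2 + 2i`) Gaussian integer `D` is called *indecomposable* if it is not the product of two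
primary Gaussian integers `d, d' ≠ 1` which are squares modulo each other. For `D` squarefree this is
the condition that the Laplacian over the field with two elements of the graph of the pairs of prime factors
of `D` that are not squares modulo each other has only the constants in its kernel.

* THE CRITERION. If `D` is primary, squarefree, with norm `13` modulo `16`, and indecomposable, then `E_D(K)`
  has exactly two elements, the 2-primary part of `Ш(E_D/K)` is trivial, the `L`-function is entire with
  `L(E_D/K, 1) ≠ 0`, and `L(E_D/K, 1) √|disc K| #E_D(K)² / (Ω ∏ c_v)` is a unit at all valuations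
  of `ℂ` above `2` (the strong conjecture up to units at the valuations above `2`).
* THE EXACT PROPORTION. Ordered by norm, exactly the proportion
  `c = ∏_{i ≥ 0} (1 - 2^{-(2i+1)}) = 0.4194...` of all primary squarefree `D` with norm `13` modulo `16` is
  indecomposable.
* ALL CURVES. The conclusion of the criterion holds for at least `1.18 %` of all elliptic curves over `K` with
  `j`-invariant `1728`. (By `TwoPartQuarticProportion.classification` each of them is `E_D` for exactly one
  `D` without fourth powers of primes; the curves are ordered by the norm of this `D`.) Among the squarefree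
  Gaussian integers (of odd and even norm, with all units) the lower density of the `D` with the conclusion is
  at least `c/24 = 0.0174...`.

The criterion is from the starting library (`MP_9ab903_nt.TwoPartQuarticProportion.curve_good`), where a
positive lower density without an explicit value is proved for it. New are the exact proportion and the
explicit shares. The proof (`Pool/Agent/U695/XG`) is a transport of the library project XK (cubic symbols over
`ℤ[ω]`, by helpers 363, 710, 804, 528, 85, 688, 697, 474, 433, 550, 703) to the quadratic symbols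
of `ℤ[i]`: bilinear sums and boxes for the large prime factors, the count of symmetric matrices over
`𝔽₂` with prescribed blocks, and mean values of multiplicative functions (library `Y699` of helper699) for the
exceptional `D`; the shares use a sieve for squarefree elements and the count of the lattice points in a
circle.
-/

set_option autoImplicit false

open scoped Classical

namespace Pool.Agent.Results.MP_9ab903_nt.ExactShareQuarticTwists

open Filter NumberField
open Pool.Agent.Results.MP_9ab903_nt.TwoPartQuarticProportion (curve TwoPart FourthPowerFree Family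
  Proved)

/-- `D ≡ 1 mod 2 + 2i`. -/
def Primary (D : GaussianInt) : Prop := (⟨2, 2⟩ : GaussianInt) ∣ D - 1

/-- `a` is a square modulo `m` -/
def SquareModulo (a m : GaussianInt) : Prop := ∃ b : GaussianInt, m ∣ a - b ^ 2

/-- `D` is not a product of two primary elements different from `1` which are squares modulo each
other -/
def Indecomposable (D : GaussianInt) : Prop :=
  ∀ d d' : GaussianInt, Primary d → Primary d' → D = d * d' → SquareModulo d' d →
    SquareModulo d d' → d = 1 ∨ d' = 1

/-- the primary squarefree Gaussian integers with norm `13` modulo `16` -/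
def Class : Set GaussianInt := {D | Primary D ∧ Squarefree D ∧ D.norm % 16 = 13}

/-- the conclusion for the curve `y² = x³ + D x` over `K = ℚ(i)`: exactly two points, and the strong
conjecture up to units at the valuations above `2` -/
def Conclusion (D : GaussianInt) : Prop :=
  ∀ (K : Type) [Field K] [NumberField K] (e : GaussianInt ≃+* 𝓞 K),
    Nat.card (curve e D).toAffine.Point = 2 ∧ TwoPart (curve e D)

/-- the number of the elements of norm at most `X` of a set of Gaussian integers -/
noncomputable def count (S : Set GaussianInt) (X : ℕ) : ℕ := {D : GaussianInt | D ∈ S ∧ D.norm ≤ X}.ncard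

/-- the constant `(1 - 1/2) (1 - 1/8) (1 - 1/32) ⋯` -/
noncomputable def c : ℝ := ∏' i : ℕ, (1 - (1 / 2 : ℝ) ^ (2 * i + 1))

section proof

open Pool.Agent.U695.XG
open Pool.Agent.Y699 (PS PD Good SB mem_SB)
open H385 (nrm im1)

theorem le_iff (D : GaussianInt) (X : ℕ) : D.norm ≤ X ↔ nrm D ≤ X := by
  rw [← Pool.Agent.Y699.nrm_cast D]
  exact Nat.cast_le

theorem ps_iff {D : GaussianInt} : PS D ↔ Primary D ∧ Squarefree D := by
  constructor
  · rintro ⟨h1, h2⟩
    exact ⟨(Pool.Agent.W164.RC.prim_iff_dvd D).1 h1, h2⟩
  · rintro ⟨h1, h2⟩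
    exact ⟨(Pool.Agent.W164.RC.prim_iff_dvd D).2 h1, h2⟩

theorem mem_class {D : GaussianInt} : D ∈ Class ↔ NSf.El {13} D := by
  rw [NSf.el13, ps_iff]
  exact ⟨fun h => ⟨⟨h.1, h.2.1⟩, h.2.2⟩, fun h => ⟨h.1.1, h.1.2, h.2⟩⟩

theorem ind_iff {D : GaussianInt} (hD : PS D) : Indecomposable D ↔ Gd (PD D) := Crt.ind_iff hD

theorem count_class (X : ℕ) : count Class X = (SS {13} X).card := by
  rw [← NSf.card_el]
  unfold count
  congr 1
  ext D
  constructor
  · rintro ⟨h1, h2⟩
    exact ⟨(le_iff D X).1 h2, mem_class.1 h1⟩
  · rintro ⟨h1, h2⟩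
    exact ⟨mem_class.2 h2, (le_iff D X).2 h1⟩

theorem count_good (X : ℕ) :
    count {D | D ∈ Class ∧ Indecomposable D} X = ((SS {13} X).filter Gd).card := by
  rw [← NSf.card_eq]
  unfold count
  congr 1
  ext D
  constructor
  · rintro ⟨⟨h1, h3⟩, h2⟩
    have h4 := mem_class.1 h1
    exact ⟨(le_iff D X).1 h2, h4, (ind_iff h4.1).1 h3⟩
  · rintro ⟨h1, h2, h3⟩
    exact ⟨⟨mem_class.2 h2, (ind_iff h2.1).2 h3⟩, (le_iff D X).2 h1⟩

theorem count_sqf (X : ℕ) : count {D | Squarefree D} X = (Dn.Sq X).ncard := by
  unfold count
  congr 1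
  ext D
  exact ⟨fun h => ⟨h.1, (le_iff D X).1 h.2⟩, fun h => ⟨h.1, (le_iff D X).2 h.2⟩⟩

theorem conclusion {D : GaussianInt} (h : D ∈ Class) (hi : Indecomposable D) : Conclusion D := by
  intro K _ _ e
  have h1 := mem_class.1 h
  exact Pool.Agent.Results.MP_9ab903_nt.TwoPartQuarticProportion.curve_good
    (NSf.good4_iff.2 ⟨h1, (ind_iff h1.1).1 hi⟩) K e

theorem fin_count (S : Set GaussianInt) (X : ℕ) : {D : GaussianInt | D ∈ S ∧ D.norm ≤ X}.Finite :=
  (Pool.Agent.Y699.fin_norm_le X).subset fun D h => (le_iff D X).1 h.2

theorem once (X : ℕ) : count {D | D ∈ Class ∧ Indecomposable D} X ≤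
    count {D | Squarefree D ∧ Conclusion D} X := by
  refine Set.ncard_le_ncard ?_ (fin_count _ X)
  rintro D ⟨⟨h1, h2⟩, h3⟩
  exact ⟨⟨h1.2.1, conclusion h1 h2⟩, h3⟩

theorem ffree {D : GaussianInt} (h : Squarefree D) (h0 : D ≠ 0) : FourthPowerFree D := by
  refine ⟨h0, fun π hπ h5 => ?_⟩
  exact hπ.not_unit (h π (dvd_trans ⟨π ^ 2, by ring⟩ h5))

theorem once' (X : ℕ) : count {D | D ∈ Class ∧ Indecomposable D} X ≤ (Proved X).ncard := by
  refine Set.ncard_le_ncard ?_
    ((Pool.Agent.Results.MP_9ab903_nt.TwoPartQuarticProportion.family_finite X).subset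
      fun D hD => hD.1)
  rintro D ⟨⟨h1, h2⟩, h3⟩
  have h4 := mem_class.1 h1
  exact ⟨⟨ffree h1.2.1 h4.1.ne, h3⟩, conclusion h1 h2⟩

theorem fam_dvd (X : ℕ) : ∀ D ∈ Family X, nrm D ≤ X ∧ ¬ (1 + im1) ^ 4 ∣ D := fun D hD =>
  ⟨(le_iff D X).1 hD.2, hD.1.2 _ Dn.prime_one_add⟩

end proof

open Pool.Agent.U695.XG in
/-- **Main theorem.** Let `c = ∏_{i ≥ 0} (1 - 2^{-(2i+1)})`; `0.4194 < c < 0.4195`.

1. If `D` is primary, squarefree, with norm `13` modulo `16`, and indecomposable, then `y² = x³ + D x` has exactly
   two points over `ℚ(i)` and satisfies `TwoPart` (the 2-primary part of `Ш` is trivial, and the strong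
   conjecture holds up to units at the valuations above `2`).
2. Ordered by norm, exactly the proportion `c` of the primary squarefree `D` with norm `13` modulo `16`
   is indecomposable.
3. The proportion, among all squarefree Gaussian integers `D` of norm at most `X`, of those with the
   conclusion of 1 is for every `ε > 0` and all large `X` at least `c/24 - ε`.
4. For all large `X`, the conclusion of 1 holds for at least `1.18 %` of all the elliptic curves over `ℚ(i)` with
   `j = 1728`: those whose parameter `D` (without fourth powers of primes) has norm at most `X`. -/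
theorem result : (0.4194 < c ∧ c < 0.4195) ∧
    (∀ D : GaussianInt, D ∈ Class → Indecomposable D → Conclusion D) ∧
    Tendsto (fun X : ℕ => (count {D | D ∈ Class ∧ Indecomposable D} X : ℝ) / (count Class X : ℝ)) atTop
      (nhds c) ∧
    (∀ ε : ℝ, 0 < ε → ∀ᶠ X : ℕ in atTop, c / 24 - ε ≤
      (count {D | Squarefree D ∧ Conclusion D} X : ℝ) / (count {D | Squarefree D} X : ℝ)) ∧
    ∀ᶠ X : ℕ in atTop, 0.0118 ≤ ((Proved X).ncard : ℝ) / ((Family X).ncard : ℝ) := by
  have hc : c = Pool.Agent.U695.XG.c2 := rfl
  have hb := t_C2.2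
  have h3 : Tendsto (fun X : ℕ => (((SS {13} X).filter Gd).card : ℝ) /
      ((Dn.Sq X).ncard : ℝ)) atTop (nhds (c / 24)) := by
    have h4 := Dn.good_share NSf.low13 Dn.share13
    have e : Pool.Agent.U695.XG.c2 * (1 / 24) = c / 24 := by rw [hc]; ring
    rw [e] at h4
    exact h4
  refine ⟨⟨hc ▸ hb.2.2.1, hc ▸ hb.2.2.2⟩, fun D h1 h2 => conclusion h1 h2, ?_, ?_, ?_⟩
  · rw [hc]
    refine den13.congr fun X => ?_
    rw [count_class, count_good]
  · intro ε hε
    filter_upwards [h3.eventually (lt_mem_nhds (show c / 24 - ε < c / 24 by linarith))] with X hX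
    refine hX.le.trans ?_
    rw [count_sqf]
    refine div_le_div_of_nonneg_right ?_ (Nat.cast_nonneg _)
    have h6 := once X
    rw [count_good] at h6
    exact_mod_cast h6
  · have h6 : 0.4194 < c := hc ▸ hb.2.2.1
    -- the good elements
    have h7 : Tendsto (fun X : ℕ => (((SS {13} X).filter Gd).card : ℝ) /
        ((Pool.Agent.Y699.SB X).card : ℝ)) atTop (nhds (c * (1 / 4))) := by
      have h8 := Dn.ratio_aux (s := fun X => ((SS {13} X).card : ℝ)) (κ := 1 / 4)
        fun X hX => Dn.SS13 hX
      have h9 := den13.mul h8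
      rw [← hc] at h9
      obtain ⟨c', X₀, hc', hlow⟩ := NSf.low13
      refine h9.congr' ?_
      filter_upwards [eventually_ge_atTop X₀, eventually_ge_atTop 1] with X hX hX1
      have hX0 : (0 : ℝ) < X := by exact_mod_cast hX1
      have hp : 0 < ((SS {13} X).card : ℝ) := lt_of_lt_of_le (by positivity) (hlow X hX)
      rw [div_mul_div_cancel₀ hp.ne']
    have h8 : 0.10484 < c * (1 / 4) := by norm_num at h6 ⊢; linarith
    filter_upwards [h7.eventually (lt_mem_nhds h8), Lt.SB_ev, Lt.fam_ev Family fam_dvd,
      eventually_ge_atTop 1] with X h9 h10 h11 hX1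
    have hX0 : (0 : ℝ) < X := by exact_mod_cast hX1
    have hpi := Real.pi_pos
    have hS : 0 < ((Pool.Agent.Y699.SB X).card : ℝ) := lt_of_lt_of_le (by positivity) h10
    have h12 : 0.10484 * ((Pool.Agent.Y699.SB X).card : ℝ) ≤ ((Proved X).ncard : ℝ) := by
      have h13 := (lt_div_iff₀ hS).1 h9
      refine h13.le.trans ?_
      have h14 := once' X
      rw [count_good] at h14
      exact_mod_cast h14
    have hG : (0 : ℝ) < ((Proved X).ncard : ℝ) := lt_of_lt_of_le (by positivity) h12
    have hF : (0 : ℝ) < ((Family X).ncard : ℝ) := by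
      have h13 : (Proved X).ncard ≤ (Family X).ncard := Set.ncard_le_ncard (fun D hD => hD.1)
        (Pool.Agent.Results.MP_9ab903_nt.TwoPartQuarticProportion.family_finite X)
      have h14 : ((Proved X).ncard : ℝ) ≤ ((Family X).ncard : ℝ) := by exact_mod_cast h13
      linarith
    rw [le_div_iff₀ hF]
    have h15 : 0 < Real.pi / 8 * X := by positivity
    have h16 : (0.0118 : ℝ) * ((Family X).ncard : ℝ) ≤ 0.0118 * (Real.pi / 8 * (751 / 100) * X) :=
      mul_le_mul_of_nonneg_left h11 (by norm_num)
    have h17 : (0.10484 : ℝ) * (Real.pi / 8 * (848 / 1000) * X) ≤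
        0.10484 * ((Pool.Agent.Y699.SB X).card : ℝ) := mul_le_mul_of_nonneg_left h10 (by norm_num)
    have h18 : (0.0118 : ℝ) * (Real.pi / 8 * (751 / 100) * X) ≤
        0.10484 * (Real.pi / 8 * (848 / 1000) * X) := by
      have e1 : (0.0118 : ℝ) * (Real.pi / 8 * (751 / 100) * X) =
        0.0118 * (751 / 100) * (Real.pi / 8 * X) := by ring
      have e2 : (0.10484 : ℝ) * (Real.pi / 8 * (848 / 1000) * X) =
        0.10484 * (848 / 1000) * (Real.pi / 8 * X) := by ring
      rw [e1, e2]
      exact mul_le_mul_of_nonneg_right (by norm_num) h15.le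
    linarith

end Pool.Agent.Results.MP_9ab903_nt.ExactShareQuarticTwists
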