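import Pool.Agent.Results.MP_e996df_nt.MajorityThreePart
import Pool.Agent.U687.MC.Maj

/-!
# The `3`-part of the strong conjecture of Birch and Swinnerton-Dyer over `ℚ(√-3)` in the successive
# prime twists of EVERY cubic twist of `y² + y = x³`: a Markov chain with a universal limit

`K` is the field of the third roots of unity, `E_D : y² + D y = x³`, and `D` is any cube-free nonunit of
`𝓞 K` that is congruent to a third root of unity modulo `3`: `D = ω ^ i ∏ π_k ^ e_k` with `n` different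
primes `π_k = 1` modulo `3` (every cubic twist of `y² + y = x³` by an element prime to `3` is isomorphic
to `E_D` for such a `D`, or for a unit).  NOTHING is assumed on `E_D`: its rank, its Tate-Shafarevich
group and the order of vanishing of `L(E_D / K, s)` are arbitrary.

We twist `E_D` successively by prime elements `q_k, …, q_1, q_0 = 1` modulo `3`, which vary in this order;
`N(q_m) = 1 + 3 a_m` modulo `9`, `f_m = 1, 2`, where the `a_m = 0, 1, 2` are arbitrary numbers such that the norm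
of `D' = D q_k^{f_k} ⋯ q_0^{f_0}` is not `1` modulo `9`.  The density of a property of `D'` is the
iterated one: `lim_{X_k → ∞} mean_{q_k} ⋯ lim_{X_0 → ∞} mean_{q_0} [property of D']`, the mean over
the primes `q_m` with `N(q_m) ≤ X_m` (those that divide the previous element are left out).

* The density `P_{k+1}` of the `D'` for which `E_{D'}(K)` is finite, `Ш(E_{D'} / K)[3^∞] = 0`,
  `L(E_{D'} / K, s)` is entire and not zero at `1`, and the `3`-part of the leading-term formula holds
  (the quotient `ρ` of `L(E_{D'} / K, 1)` and of the right-hand side is a `3`-adic unit: `Law`) exists.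
* It is computed from the symmetric matrix `A = (e_j χ_{jl} e_l + i d (e_j η_j) (e_l η_l))` over the field
  with three elements, `(π_l / π_j)_3 = ω ^ χ_{jl}`, `(ω / π_j)_3 = ω ^ η_j`,
  `1 / d = ∑ e_l η_l + ∑ f_m a_m`: `P_{k+1}` is the probability of the state `0` at the time `k` of the Markov
  chain with the transitions `r → r - 1`: `1 - 3^{-r}`, `r → r`: `2 · 3^{-(r+1)}`, `r → r + 1`: `3^{-(r+1)}`,
  started with the law of the corank of `A + Y`, `Y` a random diagonal matrix.  In particular it does not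
  depend on the further choices.
* `|P_{k+1} - 0.639...| ≤ (3/2) (2^n + 1) (2/3)^k`, the limit is `∏_{m ≥ 0} (1 - 3^{-(2 m + 1)})`.  So after
  sufficiently many steps the `3`-part of the strong conjecture holds, with a unit, for about 64 percent of
  the twists, whatever curve `E_D` we start with, at an exponential rate, uniformly in all the `a_m, f_m`.
* `P_{k+1} ≥ (2/3)^{n+k} > 0` for all `k`.
* The density of the `D'` for which `L(E_{D'} / K, s)` is entire, `ρ` is integral and not a `3`-adic unit,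
  and `E_{D'}(K)` is infinite or `Ш(E_{D'} / K)[3^∞] ≠ 0` is exactly `1 - P_{k+1}`.

Proof.  The criterion for one `D` and the law for `ρ` are the starting hand-in
`MP_e996df_nt.MajorityThreePart` (there the `D` are ordered by the norm).  By cubic reciprocity and the
theorem of Chebotarev (library) a variable prime `q` adds to `A` a new row and column whose entries are
independent and uniform, whatever the class of its norm is; the last one acts as a random diagonal
matrix.  The coranks form a Markov chain, which contracts the cumulative distribution functions in the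
norm `sup 2^r |F(r)|` (`Pool.Agent.U687.MC`).
-/

set_option autoImplicit false

namespace Pool.Agent.Results.MP_9ab903_nt.IteratedPrimeTwists

open NumberField Filter Topology Matrix
open Pool.Agent.Results.MP_e996df_nt.MajorityThreePart (curve InFamily Exceptional FiniteAndTrivial Law
  IsFactorization)
open scoped Classical

variable {K : Type} [Field K] [NumberField K]

/-- The prime elements that are `1` modulo `3`, of norm at most `X` and `1 + 3 a` modulo `9`. -/
def Primes (K : Type) [Field K] [NumberField K] (a : ZMod 3) (X : ℕ) : Set (𝓞 K) :=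
  {q : 𝓞 K | Prime q ∧ (3 : 𝓞 K) ∣ q - 1 ∧ Algebra.norm ℤ q ≤ X ∧
    Algebra.norm ℤ q % 9 = 1 + 3 * (a.val : ℤ)}

/-- The mean of `T q` over the primes `q` of `Primes K a X`; the terms of the finitely many `q` that
divide `D` are left out. -/
noncomputable def average (a : ZMod 3) (D : 𝓞 K) (T : 𝓞 K → ℝ) (X : ℕ) : ℝ :=
  (∑ᶠ q ∈ {q : 𝓞 K | q ∈ Primes K a X ∧ ¬ q ∣ D}, T q) / ((Primes K a X).ncard : ℝ)

/-- The iterated limits of the means of `T` over the `k`-fold prime twists of `D`. -/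
noncomputable def iterated (a f : ℕ → ZMod 3) (T : 𝓞 K → ℝ) : ℕ → 𝓞 K → ℝ
  | 0, D => T D
  | k + 1, D => limUnder atTop (average (a k) D (fun q => iterated a f T k (D * q ^ (f k).val)))

/-- The limits of the means over the first prime (of the iterated limits for the others) exist. -/
def LimitExists (a f : ℕ → ZMod 3) (T : 𝓞 K → ℝ) (k : ℕ) (D : 𝓞 K) : Prop :=
  Tendsto (average (a k) D (fun q => iterated a f T k (D * q ^ (f k).val))) atTop
    (𝓝 (iterated a f T (k + 1) D))

/-- `1` if `L(E_D / K, s)` is entire, `ρ` is a unit above `3`, `E_D(K)` is finite and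
`Ш(E_D / K)[3^∞] = 0` (then `L(E_D / K, 1) ≠ 0`, see `Law`), and `0` otherwise. -/
noncomputable def unitCase (D : 𝓞 K) : ℝ := if Law D ∧ FiniteAndTrivial D then 1 else 0

/-- `1` if `L(E_D / K, s)` is entire, `ρ` is integral and not a unit above `3`, and `E_D(K)` is infinite
or `Ш(E_D / K)[3^∞] ≠ 0`, and `0` otherwise. -/
noncomputable def otherCase (D : 𝓞 K) : ℝ := if Law D ∧ ¬ FiniteAndTrivial D then 1 else 0

/-- The matrix of the symbols. -/
def symbols {n : ℕ} (e : Fin n → ZMod 3) (i : ZMod 3) (χ : Fin n → Fin n → ZMod 3)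
    (η : Fin n → ZMod 3) (d : ZMod 3) : Matrix (Fin n) (Fin n) (ZMod 3) :=
  Matrix.of fun j k => e j * χ j k * e k + i * d * (e j * η j) * (e k * η k)

/-- The share of the diagonal matrices `Y` for which the rank of `A + Y` is `n - r`. -/
noncomputable def share {n : ℕ} (A : Matrix (Fin n) (Fin n) (ZMod 3)) (r : ℕ) : ℝ :=
  (Nat.card {y : Fin n → ZMod 3 // (A + diagonal y).rank + r = n} : ℝ) / 3 ^ n

/-- One step of the Markov chain. -/
noncomputable def markov (μ : ℕ → ℝ) (r : ℕ) : ℝ :=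
  (1 - (1 / 3) ^ (r + 1)) * μ (r + 1) + 2 * (1 / 3) ^ (r + 1) * μ r +
    (if r = 0 then 0 else (1 / 3) ^ r * μ (r - 1))

/-- The law of the Markov chain at the time `k`. -/
noncomputable def chain {n : ℕ} (A : Matrix (Fin n) (Fin n) (ZMod 3)) : ℕ → ℕ → ℝ
  | 0 => share A
  | k + 1 => markov (chain A k)

/-- The norm of `D q_k^{f_k} ⋯ q_0^{f_0}` is not `1` modulo `9` if `N(q_m) = 1 + 3 a_m` modulo `9`. -/
def NotExceptional (a f : ℕ → ZMod 3) (k : ℕ) (D : 𝓞 K) : Prop :=
  ¬ (9 : ℤ) ∣ Algebra.norm ℤ D * ∏ m ∈ Finset.range (k + 1),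
    (1 + 3 * ((a m).val : ℤ)) ^ (f m).val - 1

/-- `∏_{m ≥ 0} (1 - 3^{-(2 m + 1)}) = 0.639...` -/
noncomputable def limit : ℝ := ∏' m : ℕ, (1 - (1 / 3 : ℝ) ^ (2 * m + 1))

section proof

open Pool.Agent.U687.KT
open Pool.Agent.U687.MC hiding prob
open Pool.Agent.Y692.QS (Ei w nr)
open Pool.Agent.Y696.CTK (Tri)
open Pool.Agent.N883.FF

theorem iterated_eq (a f : ℕ → ZMod 3) (T : 𝓞 K → ℝ) (k : ℕ) :
    ∀ D : 𝓞 K, iterated a f T k D = it a f T k D := by
  induction k with
  | zero =>
    intro D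
    rfl
  | succ k ih =>
    intro D
    show limUnder atTop (average (a k) D (fun q => iterated a f T k (D * q ^ (f k).val))) =
      limUnder atTop (av (a k) D (fun q => it a f T k (D * q ^ (f k).val)))
    have h : (fun q => iterated a f T k (D * q ^ (f k).val)) =
        fun q => it a f T k (D * q ^ (f k).val) := funext fun q => ih _
    rw [h]
    rfl

theorem chain_eq {n : ℕ} {A : Matrix (Fin n) (Fin n) (ZMod 3)} (hA : A.IsSymm) (k : ℕ) :
    chain A k = dd k A := by
  induction k with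
  | zero =>
    funext r
    exact (dd_zero A r).symm
  | succ k ih =>
    funext r
    rw [dd_succ k hA r, ← ih]
    rfl

theorem law_of [IsCyclotomicExtension {3} ℚ K] {D : 𝓞 K} (h1 : FamK D) (h2 : NxK D) : Law D :=
  ((Pool.Agent.Results.MP_e996df_nt.MajorityThreePart.result K).2.1 _ h1 h2).1

/-- **the main theorem for one function** -/
theorem main [IsCyclotomicExtension {3} ℚ K] (u v : ℝ) (T : 𝓞 K → ℝ)
    (hT : ∀ D : 𝓞 K, FamK D → NxK D → T D = if Tri D then u else v)
    {ω : 𝓞 K} (hω : ω ^ 2 + ω + 1 = 0) {a f : ℕ → ZMod 3} (hf : ∀ m, f m ≠ 0) {D : 𝓞 K} {n : ℕ}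
    {π : Fin n → 𝓞 K} {e : Fin n → ZMod 3} {i : ZMod 3} {χ : Fin n → Fin n → ZMod 3}
    {η : Fin n → ZMod 3} (h : IsFactorization ω D n π e i χ η) {k : ℕ} {d : ZMod 3}
    (hd : (∑ l, e l * η l + ∑ m ∈ Finset.range (k + 1), f m * a m) * d = 1) :
    LimitExists a f T k D ∧ iterated a f T (k + 1) D =
      v + (u - v) * dd k (symbols e i χ η d) 0 ∧ (symbols e i χ η d).IsSymm := by
  obtain ⟨⟨j, hj⟩, -⟩ := Pool.Agent.Y455.CTK.jex K
  obtain ⟨j, hj, rfl⟩ := exists_j j hj hω
  obtain ⟨m1, m2⟩ := it_mainB j hj a f hf u v T hT k D n π e i χ η d h hd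
  refine ⟨?_, ?_, AM_symm (factB_symm j hj h)⟩
  · unfold LimitExists
    rw [iterated_eq, m2]
    have h3 : (fun q => iterated a f T k (D * q ^ (f k).val)) =
        fun q => it a f T k (D * q ^ (f k).val) := funext fun q => iterated_eq a f T k _
    rw [h3]
    exact m1
  · rw [iterated_eq, m2, EE_uv]
    rfl

theorem limit_eq : Pool.Agent.U687.MC.prob 0 = limit := by
  unfold Pool.Agent.U687.MC.prob limit
  rw [Finset.prod_range_zero, div_one]

/-- the numbers for one factorisation -/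
theorem main2 [IsCyclotomicExtension {3} ℚ K]
    {ω : 𝓞 K} (hω : ω ^ 2 + ω + 1 = 0) {a f : ℕ → ZMod 3} (hf : ∀ m, f m ≠ 0) {D : 𝓞 K} {n : ℕ}
    {π : Fin n → 𝓞 K} {e : Fin n → ZMod 3} {i : ZMod 3} {χ : Fin n → Fin n → ZMod 3}
    {η : Fin n → ZMod 3} (h : IsFactorization ω D n π e i χ η) {k : ℕ} {d : ZMod 3}
    (hd : (∑ l, e l * η l + ∑ m ∈ Finset.range (k + 1), f m * a m) * d = 1) :
    (LimitExists a f unitCase k D ∧
      iterated a f unitCase (k + 1) D = chain (symbols e i χ η d) k 0) ∧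
    (LimitExists a f otherCase k D ∧
      iterated a f otherCase (k + 1) D = 1 - chain (symbols e i χ η d) k 0) ∧
    (2 / 3 : ℝ) ^ (n + k) ≤ iterated a f unitCase (k + 1) D ∧
    |iterated a f unitCase (k + 1) D - limit| ≤ 3 / 2 * (2 ^ n + 1) * (2 / 3) ^ k := by
  obtain ⟨g1, g2, g3⟩ := main (K := K) 1 0 unitCase (by
    intro D h1 h2
    have hl := law_of h1 h2
    unfold unitCase
    by_cases h5 : Tri D
    · rw [if_pos ⟨hl, h5⟩, if_pos h5]
    · rw [if_neg fun h6 => h5 h6.2, if_neg h5]) hω hf h hd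
  obtain ⟨b1, b2, -⟩ := main (K := K) 0 1 otherCase (by
    intro D h1 h2
    have hl := law_of h1 h2
    unfold otherCase
    by_cases h5 : Tri D
    · rw [if_neg fun h6 => h6.2 h5, if_pos h5]
    · rw [if_pos ⟨hl, h5⟩, if_neg h5]) hω hf h hd
  have e1 : iterated a f unitCase (k + 1) D = dd k (symbols e i χ η d) 0 := by
    rw [g2]
    ring
  refine ⟨⟨g1, ?_⟩, ⟨b1, ?_⟩, ?_, ?_⟩
  · rw [e1, chain_eq g3]
  · rw [b2, chain_eq g3]
    ring
  · rw [e1]
    exact dd_ge k _
  · rw [e1, ← limit_eq]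
    have h5 := conv k g3 0
    rw [pow_zero, div_one] at h5
    exact h5

end proof

open Pool.Agent.U687.KT in
open Pool.Agent.U687.MC hiding prob in
/-- **The `3`-part of the strong conjecture in the successive prime twists of every `E_D`.** -/
theorem result (K : Type) [Field K] [NumberField K] [IsCyclotomicExtension {3} ℚ K] :
    (∀ (ω : 𝓞 K) (a f : ℕ → ZMod 3) (D : 𝓞 K) (n : ℕ) (π : Fin n → 𝓞 K) (e : Fin n → ZMod 3)
      (i : ZMod 3) (χ : Fin n → Fin n → ZMod 3) (η : Fin n → ZMod 3) (k : ℕ) (d : ZMod 3),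
      ω ^ 2 + ω + 1 = 0 → (∀ m, f m ≠ 0) → IsFactorization ω D n π e i χ η →
      (∑ l, e l * η l + ∑ m ∈ Finset.range (k + 1), f m * a m) * d = 1 →
      (LimitExists a f unitCase k D ∧
        iterated a f unitCase (k + 1) D = chain (symbols e i χ η d) k 0) ∧
      (LimitExists a f otherCase k D ∧
        iterated a f otherCase (k + 1) D = 1 - chain (symbols e i χ η d) k 0)) ∧
    (∀ D : 𝓞 K, InFamily D → ∃ n : ℕ, 0 < n ∧
      (∃ (ω : 𝓞 K) (π : Fin n → 𝓞 K) (e : Fin n → ZMod 3) (i : ZMod 3)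
        (χ : Fin n → Fin n → ZMod 3) (η : Fin n → ZMod 3),
        ω ^ 2 + ω + 1 = 0 ∧ IsFactorization ω D n π e i χ η) ∧
      ∀ (a f : ℕ → ZMod 3) (k : ℕ), (∀ m, f m ≠ 0) → NotExceptional a f k D →
        LimitExists a f unitCase k D ∧ LimitExists a f otherCase k D ∧
        (2 / 3 : ℝ) ^ (n + k) ≤ iterated a f unitCase (k + 1) D ∧
        iterated a f otherCase (k + 1) D = 1 - iterated a f unitCase (k + 1) D ∧
        |iterated a f unitCase (k + 1) D - limit| ≤ 3 / 2 * (2 ^ n + 1) * (2 / 3) ^ k) ∧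
    (∀ (D : 𝓞 K) (a f : ℕ → ZMod 3), InFamily D → (∀ m, f m ≠ 0) →
      (∀ k, NotExceptional a f k D) →
      Tendsto (fun k => iterated a f unitCase k D) atTop (𝓝 limit)) ∧
    (0.639 : ℝ) < limit ∧ limit < 0.6391 := by
  have part2 : ∀ D : 𝓞 K, InFamily D → ∃ n : ℕ, 0 < n ∧
      (∃ (ω : 𝓞 K) (π : Fin n → 𝓞 K) (e : Fin n → ZMod 3) (i : ZMod 3)
        (χ : Fin n → Fin n → ZMod 3) (η : Fin n → ZMod 3),
        ω ^ 2 + ω + 1 = 0 ∧ IsFactorization ω D n π e i χ η) ∧
      ∀ (a f : ℕ → ZMod 3) (k : ℕ), (∀ m, f m ≠ 0) → NotExceptional a f k D →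
        LimitExists a f unitCase k D ∧ LimitExists a f otherCase k D ∧
        (2 / 3 : ℝ) ^ (n + k) ≤ iterated a f unitCase (k + 1) D ∧
        iterated a f otherCase (k + 1) D = 1 - iterated a f unitCase (k + 1) D ∧
        |iterated a f unitCase (k + 1) D - limit| ≤ 3 / 2 * (2 ^ n + 1) * (2 / 3) ^ k := by
    intro D hD
    obtain ⟨⟨j, hj⟩, -⟩ := Pool.Agent.Y455.CTK.jex K
    obtain ⟨z, rfl⟩ := j.surjective D
    obtain ⟨i, n, π, e, hdt, rfl⟩ := Pool.Agent.N883.FF.fam_data
      ((Pool.Agent.N883.FF.famK_iff j _).1 hD)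
    obtain ⟨ω, χ, η, h1, h2⟩ := Pool.Agent.N883.FF.fact_exB j hj hdt i
    obtain ⟨j', hj', rfl⟩ := exists_j j hj h1
    refine ⟨_, Nat.succ_pos _, ⟨_, _, e, i, χ, η, h1, h2⟩, ?_⟩
    intro a f k hf hne
    have h3 := mt (nine_iff j' hj' h2 a f (k + 1)).2 hne
    obtain ⟨d, hd⟩ : ∃ d : ZMod 3, (∑ l, e l * η l +
        ∑ m ∈ Finset.range (k + 1), f m * a m) * d = 1 := by
      have : ∀ s : ZMod 3, s ≠ 0 → ∃ d, s * d = 1 := by decide
      exact this _ h3
    obtain ⟨⟨r1, r2⟩, ⟨r3, r4⟩, r5, r6⟩ := main2 h1 hf h2 hd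
    exact ⟨r1, r3, r5, by rw [r4, r2], r6⟩
  refine ⟨?_, part2, ?_, ?_, ?_⟩
  · intro ω a f D n π e i χ η k d hω hf h hd
    obtain ⟨r1, r2, -, -⟩ := main2 hω hf h hd
    exact ⟨r1, r2⟩
  · intro D a f hD hf hne
    obtain ⟨n, -, -, h⟩ := part2 D hD
    rw [← tendsto_add_atTop_iff_nat 1]
    rw [tendsto_iff_dist_tendsto_zero]
    have h0 : Tendsto (fun k : ℕ => 3 / 2 * (2 ^ n + 1) * (2 / 3 : ℝ) ^ k) atTop (𝓝 0) := by
      have := (tendsto_pow_atTop_nhds_zero_of_lt_one (r := (2 / 3 : ℝ)) (by norm_num)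
        (by norm_num)).const_mul (3 / 2 * (2 ^ n + 1) : ℝ)
      rwa [mul_zero] at this
    refine squeeze_zero (fun k => dist_nonneg) (fun k => ?_) h0
    rw [Real.dist_eq]
    exact (h a f k hf (hne k)).2.2.2.2
  · rw [← limit_eq]
    exact Pool.Agent.R419.KL.prob_facts.2.1
  · rw [← limit_eq]
    exact Pool.Agent.R419.KL.prob_facts.2.2.1

end Pool.Agent.Results.MP_9ab903_nt.IteratedPrimeTwists
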